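import Mathlib
import Pool.Agent.H10.CwA

set_option autoImplicit false

namespace Pool.Agent.Results.MP_21a028_co.NotBounded
open Pool.Agent.H10.Cw

theorem result (t : ℕ) (ht : 4 ≤ t) (d : ℕ) : ∃ (V : Type) (G : SimpleGraph V), Finite V ∧
    Nonempty V ∧ CwLe t G ∧ (∀ v, d ≤ (G.neighborSet v).ncard) ∧ dom G ≤ 3 := by
  obtain ⟨V, G, l, _, g1, -, g3, g4, ⟨T, t1, t2⟩, -, g7⟩ := all (d := d) (a := (⟨0, by omega⟩ : Fin t))
    (b := ⟨1, by omega⟩) (c := ⟨2, by omega⟩) (e := ⟨3, by omega⟩) (by simp) (by simp) (by simp)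
    (by simp) (by simp) (by simp) (d + 1) 0
  obtain ⟨r, hr⟩ := Finset.card_pos.1 t1
  refine ⟨V, G, ‹_›, ⟨r⟩, ⟨_, _, _, g1, ⟨.refl⟩⟩, fun v => ?_, csSup_le' ?_⟩
  · obtain ⟨S, s1, s2⟩ := (em _).elim (g3 v) (g4 v)
    have := Set.ncard_le_ncard (s := (S : Set V)) (t := G.neighborSet v) s2
    rw [Set.ncard_coe_finset] at this
    omega
  rintro k ⟨f, hf⟩
  by_contra! hk
  have ex : ∀ x y z : Fin k, ∃ w, w ≠ x ∧ w ≠ y ∧ w ≠ z := fun x y z => by
    obtain ⟨w, -, h⟩ := Finset.exists_mem_notMem_of_card_lt_card (s := {x, y, z}) (t := Finset.univ)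
      (Finset.card_le_three.trans_lt (by simpa))
    exact ⟨w, by simpa using h⟩
  obtain ⟨x, hx, -⟩ := ex (f r) (f r) (f r)
  obtain ⟨p, -, hp⟩ := g7 (fun u => f u = f r ∨ f u = x) (fun v _ => by
    have := hf v x
    have := hf v (f r)
    grind) r (t2 r hr) (.inl rfl)
  obtain ⟨w, hw⟩ := ex (f r) x (f p)
  have := hf p w
  grind

end Pool.Agent.Results.MP_21a028_co.NotBounded
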